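import Mathlib

/-!
Real lattice characters of a vector lattice with a strong unit.
-/

set_option autoImplicit false
set_option linter.unusedSectionVars false

namespace Pool.Agent.P.MP_9b1016_an

section Abstract

variable {E : Type*} [AddCommGroup E] [Lattice E] [IsOrderedAddMonoid E] [Module ℝ E]
  [PosSMulMono ℝ E]

theorem smul_sup_of_nonneg {c : ℝ} (hc : 0 ≤ c) (x y : E) : c • (x ⊔ y) = c • x ⊔ c • y := by
  rcases hc.eq_or_lt with rfl | hc'
  · simp
  apply le_antisymm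
  · have h : x ⊔ y ≤ c⁻¹ • (c • x ⊔ c • y) := by
      apply sup_le
      · calc x = c⁻¹ • (c • x) := by rw [smul_smul, inv_mul_cancel₀ hc'.ne', one_smul]
          _ ≤ _ := smul_le_smul_of_nonneg_left le_sup_left (inv_nonneg.2 hc)
      · calc y = c⁻¹ • (c • y) := by rw [smul_smul, inv_mul_cancel₀ hc'.ne', one_smul]
          _ ≤ _ := smul_le_smul_of_nonneg_left le_sup_right (inv_nonneg.2 hc)
    calc c • (x ⊔ y) ≤ c • (c⁻¹ • (c • x ⊔ c • y)) := smul_le_smul_of_nonneg_left h hc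
      _ = _ := by rw [smul_smul, mul_inv_cancel₀ hc'.ne', one_smul]
  · exact sup_le (smul_le_smul_of_nonneg_left le_sup_left hc)
      (smul_le_smul_of_nonneg_left le_sup_right hc)

theorem smul_inf_of_nonneg {c : ℝ} (hc : 0 ≤ c) (x y : E) : c • (x ⊓ y) = c • x ⊓ c • y := by
  have h := smul_sup_of_nonneg hc (-x) (-y)
  rw [← neg_inf, smul_neg, smul_neg, smul_neg, ← neg_inf] at h
  exact neg_injective h

theorem abs_smul_eq (c : ℝ) (x : E) : |c • x| = |c| • |x| := by
  rcases le_total 0 c with hc | hc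
  · rw [abs_of_nonneg hc, abs, abs, smul_sup_of_nonneg hc, smul_neg]
  · rw [abs_of_nonpos hc, abs, abs, smul_sup_of_nonneg (neg_nonneg.2 hc), sup_comm]
    simp

theorem smul_le_smul_right' {s t : ℝ} (h : s ≤ t) {v : E} (hv : 0 ≤ v) : s • v ≤ t • v := by
  have : 0 ≤ (t - s) • v := smul_nonneg (sub_nonneg.2 h) hv
  rwa [sub_smul, sub_nonneg] at this

/-- solid submodule -/
def Solid (m : Submodule ℝ E) : Prop := ∀ x y : E, |x| ≤ |y| → y ∈ m → x ∈ m

theorem Solid.abs_mem {m : Submodule ℝ E} (hm : Solid m) {x : E} (hx : x ∈ m) : |x| ∈ m :=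
  hm _ _ (by rw [abs_abs]) hx

theorem Solid.of_le {m : Submodule ℝ E} (hm : Solid m) {x y : E} (h : |x| ≤ y) (hy : y ∈ m) :
    x ∈ m := hm _ _ (h.trans (le_abs_self y)) hy

/-- the ideal generated by an ideal and an element -/
def gen (m : Submodule ℝ E) (hm : Solid m) (a : E) : Submodule ℝ E where
  carrier := {x | ∃ z ∈ m, ∃ C : ℝ, 0 ≤ C ∧ |x| ≤ z + C • |a|}
  zero_mem' := ⟨0, m.zero_mem, 0, le_rfl, by simp⟩
  add_mem' := by
    rintro x y ⟨z, hz, C, hC, hx⟩ ⟨z', hz', C', hC', hy⟩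
    refine ⟨z + z', m.add_mem hz hz', C + C', add_nonneg hC hC', ?_⟩
    calc |x + y| ≤ |x| + |y| := abs_add_le x y
      _ ≤ (z + C • |a|) + (z' + C' • |a|) := add_le_add hx hy
      _ = _ := by rw [add_smul]; abel
  smul_mem' := by
    rintro c x ⟨z, hz, C, hC, hx⟩
    have _ := hm
    refine ⟨|c| • z, m.smul_mem _ hz, |c| * C, mul_nonneg (abs_nonneg c) hC, ?_⟩
    rw [abs_smul_eq, mul_smul, ← smul_add]
    exact smul_le_smul_of_nonneg_left hx (abs_nonneg c)

theorem gen_solid (m : Submodule ℝ E) (hm : Solid m) (a : E) : Solid (gen m hm a) := by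
  rintro x y h ⟨z, hz, C, hC, hy⟩
  exact ⟨z, hz, C, hC, h.trans hy⟩

theorem le_gen (m : Submodule ℝ E) (hm : Solid m) (a : E) : m ≤ gen m hm a := fun x hx =>
  ⟨|x|, hm.abs_mem hx, 0, le_rfl, by simp⟩

theorem mem_gen (m : Submodule ℝ E) (hm : Solid m) (a : E) : a ∈ gen m hm a :=
  ⟨0, m.zero_mem, 1, zero_le_one, by simp⟩

theorem solid_bot : Solid (⊥ : Submodule ℝ E) := by
  intro x y h hy
  rw [Submodule.mem_bot] at hy ⊢
  rw [hy, abs_zero] at h
  exact le_antisymm ((le_abs_self x).trans h) (neg_nonpos.1 ((neg_le_abs x).trans h))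

theorem exists_maximal (v : E) (m₀ : Submodule ℝ E) (h₀ : Solid m₀) (hv : v ∉ m₀) :
    ∃ m : Submodule ℝ E, m₀ ≤ m ∧ Solid m ∧ v ∉ m ∧
      ∀ a, a ∉ m → ∃ z ∈ m, ∃ C : ℝ, 0 ≤ C ∧ |v| ≤ z + C • |a| := by
  obtain ⟨m, hm₀, hm⟩ := zorn_le_nonempty₀ {m : Submodule ℝ E | Solid m ∧ v ∉ m} (by
    intro c hc hchain y hy
    have hd : DirectedOn (· ≤ ·) c := hchain.directedOn
    refine ⟨sSup c, ⟨?_, ?_⟩, fun z hz => le_sSup hz⟩
    · intro a b hab hb
      obtain ⟨p, hp, hb⟩ := (Submodule.mem_sSup_of_directed ⟨y, hy⟩ hd).1 hb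
      exact (le_sSup hp : p ≤ sSup c) ((hc hp).1 a b hab hb)
    · intro h
      obtain ⟨p, hp, hb⟩ := (Submodule.mem_sSup_of_directed ⟨y, hy⟩ hd).1 h
      exact (hc hp).2 hb) m₀ ⟨h₀, hv⟩
  refine ⟨m, hm₀, hm.prop.1, hm.prop.2, fun a ha => ?_⟩
  by_contra hcon
  have h1 : v ∉ gen m hm.prop.1 a := hcon
  exact ha (hm.le_of_ge ⟨gen_solid m _ a, h1⟩ (le_gen m _ a) (mem_gen m _ a))

theorem exists_char (v : E) (hv : 0 ≤ v) (hunit : ∀ x : E, ∃ C : ℝ, 0 ≤ C ∧ |x| ≤ C • v)
    (y : E) (hy : ¬ y ≤ 0) :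
    ∃ χ : E →ₗ[ℝ] ℝ, (∀ a b, χ (a ⊔ b) = max (χ a) (χ b)) ∧ χ v = 1 ∧ 0 ≤ χ y := by
  have hv0 : v ∉ gen ⊥ solid_bot (y⁻) := by
    rintro ⟨z, hz, C, hC, h⟩
    rw [Submodule.mem_bot] at hz
    rw [hz, zero_add, abs_of_nonneg hv, abs_of_nonneg (negPart_nonneg y)] at h
    obtain ⟨D, hD, hyD⟩ := hunit y⁺
    rw [abs_of_nonneg (posPart_nonneg y)] at hyD
    have h1 : y⁺ ≤ (D * C + 1) • y⁻ := by
      calc y⁺ ≤ D • v := hyD
        _ ≤ D • (C • y⁻) := smul_le_smul_of_nonneg_left h hD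
        _ = (D * C) • y⁻ := smul_smul _ _ _
        _ ≤ _ := smul_le_smul_right' (by linarith) (negPart_nonneg y)
    have h2 : y⁺ ≤ (D * C + 1) • y⁺ := by
      calc y⁺ = (1 : ℝ) • y⁺ := (one_smul _ _).symm
        _ ≤ _ := smul_le_smul_right' (by nlinarith [mul_nonneg hD hC]) (posPart_nonneg y)
    have h3 := le_inf h2 h1
    rw [← smul_inf_of_nonneg (by positivity), posPart_inf_negPart_eq_zero, smul_zero] at h3
    exact hy ((le_posPart y).trans h3)
  obtain ⟨m, hm₀, hm, hvm, hmax⟩ := exists_maximal v _ (gen_solid _ _ _) hv0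
  rw [abs_of_nonneg hv] at hmax
  have hym : y⁻ ∈ m := hm₀ (mem_gen _ _ _)
  have hvle : ∀ (c : ℝ) (z : E), 0 < c → z ∈ m → ¬ c • v ≤ z := by
    intro c z hc hz h
    apply hvm
    have h1 : c • v ∈ m := hm.of_le (by rwa [abs_of_nonneg (smul_nonneg hc.le hv)]) hz
    have := m.smul_mem c⁻¹ h1
    rwa [smul_smul, inv_mul_cancel₀ hc.ne', one_smul] at this
  have hprime : ∀ x : E, x⁺ ∈ m ∨ x⁻ ∈ m := by
    intro x
    by_contra hcon
    push Not at hcon
    obtain ⟨p, hp, C, hC, h1⟩ := hmax _ hcon.1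
    obtain ⟨q, hq, D, hD, h2⟩ := hmax _ hcon.2
    rw [abs_of_nonneg (posPart_nonneg x)] at h1
    rw [abs_of_nonneg (negPart_nonneg x)] at h2
    have h3 : v ≤ (|p| + |q|) + (C + D) • x⁺ := by
      refine h1.trans (add_le_add ?_ (smul_le_smul_right' (by linarith) (posPart_nonneg x)))
      exact (le_abs_self p).trans (le_add_of_nonneg_right (abs_nonneg q))
    have h4 : v ≤ (|p| + |q|) + (C + D) • x⁻ := by
      refine h2.trans (add_le_add ?_ (smul_le_smul_right' (by linarith) (negPart_nonneg x)))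
      exact (le_abs_self q).trans (le_add_of_nonneg_left (abs_nonneg p))
    have h5 := le_inf h3 h4
    rw [← add_inf, ← smul_inf_of_nonneg (by positivity), posPart_inf_negPart_eq_zero, smul_zero,
      add_zero] at h5
    exact hvle 1 _ one_pos (m.add_mem (hm.abs_mem hp) (hm.abs_mem hq)) (by rwa [one_smul])
  have hval : ∀ z : E, ∃ s : ℝ, z - s • v ∈ m := by
    intro z
    obtain ⟨C, hC, hz⟩ := hunit z
    let T : Set ℝ := {t | (z - t • v)⁺ ∈ m}
    have hTup : ∀ t ∈ T, ∀ t', t ≤ t' → t' ∈ T := by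
      intro t ht t' htt
      refine hm.of_le ?_ ht
      rw [abs_of_nonneg (posPart_nonneg _)]
      exact posPart_mono (sub_le_sub_left (smul_le_smul_right' htt hv) z)
    have hTne : T.Nonempty := by
      refine ⟨C, ?_⟩
      change (z - C • v)⁺ ∈ m
      rw [posPart_eq_zero.2 (sub_nonpos.2 ((le_abs_self z).trans hz))]
      exact m.zero_mem
    have hTbd : BddBelow T := by
      refine ⟨-C - 1, fun t ht => ?_⟩
      by_contra hlt
      have h1 : (-C - 1) ∈ T := hTup t ht _ (not_le.1 hlt).le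
      refine hvle 1 _ one_pos h1 (le_trans ?_ (le_posPart _))
      have h2 : -z ≤ C • v := (neg_le_abs z).trans hz
      have h3 : z - (-C - 1) • v = (C • v - -z) + (1 : ℝ) • v := by
        rw [sub_smul, neg_smul]; abel
      rw [h3]
      exact le_add_of_nonneg_left (sub_nonneg.2 h2)
    refine ⟨sInf T, ?_⟩
    by_contra hcon
    obtain ⟨p, hp, D, hD, h1⟩ := hmax _ hcon
    set ε : ℝ := 1 / (2 * (D + 1)) with hε
    have hε0 : 0 < ε := by positivity
    have hεD : D * ε ≤ 1 / 2 := by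
      rw [hε, mul_one_div, div_le_div_iff₀ (by positivity) (by positivity)]; linarith
    have h2 : (z - (sInf T + ε) • v)⁺ ∈ m := by
      obtain ⟨t, ht, htl⟩ := exists_lt_of_csInf_lt hTne (lt_add_of_pos_right (sInf T) hε0)
      exact hTup t ht _ htl.le
    have h3 : (z - (sInf T - ε) • v)⁻ ∈ m := by
      refine (hprime _).resolve_left fun h => ?_
      have := csInf_le hTbd (show sInf T - ε ∈ T from h)
      linarith
    have h4 : |z - sInf T • v| ≤
        ((z - (sInf T + ε) • v)⁺ + (z - (sInf T - ε) • v)⁻) + ε • v := by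
      rw [abs]
      apply sup_le
      · calc z - sInf T • v = (z - (sInf T + ε) • v) + ε • v := by rw [add_smul]; abel
          _ ≤ _ := add_le_add ((le_posPart _).trans (le_add_of_nonneg_right (negPart_nonneg _)))
            le_rfl
      · calc -(z - sInf T • v) = -(z - (sInf T - ε) • v) + ε • v := by rw [sub_smul]; abel
          _ ≤ _ := add_le_add ((neg_le_negPart _).trans
            (le_add_of_nonneg_left (posPart_nonneg _))) le_rfl
    have h5 := h1.trans (add_le_add le_rfl (smul_le_smul_of_nonneg_left h4 hD))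
    rw [smul_add, smul_smul, ← add_assoc] at h5
    refine hvle (1 / 2) _ (by norm_num) (m.add_mem hp (m.smul_mem D (m.add_mem h2 h3))) ?_
    have h6 := h5.trans (add_le_add le_rfl (smul_le_smul_right' hεD hv))
    have h7 : (1 / 2 : ℝ) • v = v - (1 / 2 : ℝ) • v := by
      rw [eq_sub_iff_add_eq, ← add_smul]; norm_num
    rw [h7, sub_le_iff_le_add]
    exact h6
  have huniq : ∀ (z : E) (s t : ℝ), z - s • v ∈ m → z - t • v ∈ m → s = t := by
    intro z s t hs ht
    by_contra hne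
    apply hvm
    have h1 := m.smul_mem (t - s)⁻¹ (m.sub_mem hs ht)
    have h2 : z - s • v - (z - t • v) = (t - s) • v := by rw [sub_smul]; abel
    rwa [h2, smul_smul, inv_mul_cancel₀ (sub_ne_zero.2 (Ne.symm hne)), one_smul] at h1
  choose f hf using hval
  let χ : E →ₗ[ℝ] ℝ :=
    { toFun := f
      map_add' := fun a b => huniq (a + b) _ _ (hf _) (by
        have := m.add_mem (hf a) (hf b)
        convert this using 1
        rw [add_smul]; abel)
      map_smul' := fun c a => huniq (c • a) _ _ (hf _) (by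
        have := m.smul_mem c (hf a)
        convert this using 1
        simp only [RingHom.id_apply, smul_eq_mul, smul_sub, smul_smul]) }
  have hsup : ∀ a b, χ (a ⊔ b) = max (χ a) (χ b) := by
    intro a b
    refine huniq (a ⊔ b) _ _ (hf _) ?_
    have h1 : max (f a) (f b) • v = f a • v ⊔ f b • v := by
      rcases le_total (f a) (f b) with h | h
      · rw [max_eq_right h, sup_eq_right.2 (smul_le_smul_right' h hv)]
      · rw [max_eq_left h, sup_eq_left.2 (smul_le_smul_right' h hv)]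
    change a ⊔ b - max (f a) (f b) • v ∈ m
    rw [h1]
    refine hm.of_le ?_ (m.add_mem (hm.abs_mem (hf a)) (hm.abs_mem (hf b)))
    calc |a ⊔ b - f a • v ⊔ f b • v|
        = |(a ⊔ b - f a • v ⊔ b) + (b ⊔ f a • v - f b • v ⊔ f a • v)| := by
          rw [sup_comm b, sup_comm (f b • v)]; congr 1; abel
      _ ≤ _ := (abs_add_le _ _).trans
          (add_le_add (abs_sup_sub_sup_le_abs _ _ _) (abs_sup_sub_sup_le_abs _ _ _))
  refine ⟨χ, hsup, huniq v _ _ (hf v) (by simp), ?_⟩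
  have h1 : χ y⁻ = 0 := huniq y⁻ _ _ (hf _) (by simpa using hym)
  rw [negPart_def, hsup, map_neg, map_zero] at h1
  have := le_max_left (-χ y) 0
  linarith

end Abstract

end Pool.Agent.P.MP_9b1016_an
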