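import Mathlib
import Pool.Agent.P.MP_9b1016_an.Chars

/-!
Multiplication operators on a Banach lattice with a quasi-interior point.
-/

set_option autoImplicit false
set_option linter.unusedSectionVars false

namespace Pool.Agent.P.MP_9b1016_an

open Filter Topology

variable {B : Type*} [NormedAddCommGroup B] [NormedSpace ℝ B] [CompleteSpace B] [Lattice B]
  [IsOrderedAddMonoid B] [PosSMulMono ℝ B] [HasSolidNorm B]

/-- the principal ideal -/
def PI (v : B) : Submodule ℝ B := gen ⊥ solid_bot v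

theorem mem_PI {v x : B} : x ∈ PI v ↔ ∃ C : ℝ, 0 ≤ C ∧ |x| ≤ C • |v| := by
  constructor
  · rintro ⟨z, hz, C, hC, h⟩
    rw [Submodule.mem_bot] at hz
    rw [hz, zero_add] at h
    exact ⟨C, hC, h⟩
  · rintro ⟨C, hC, h⟩
    exact ⟨0, Submodule.zero_mem _, C, hC, by rwa [zero_add]⟩

theorem PI_solid (v : B) : Solid (PI v) := gen_solid _ _ _

theorem Solid.sup_mem {m : Submodule ℝ B} (hm : Solid m) {x y : B} (hx : x ∈ m) (hy : y ∈ m) :
    x ⊔ y ∈ m := by
  refine hm.of_le ?_ (m.add_mem (hm.abs_mem hx) (hm.abs_mem hy))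
  calc |x ⊔ y| = |(x ⊔ y - 0 ⊔ y) + (y ⊔ 0 - 0 ⊔ 0)| := by rw [sup_comm y]; simp
    _ ≤ _ := (abs_add_le _ _).trans (add_le_add (by simpa using abs_sup_sub_sup_le_abs x 0 y)
      (by simpa using abs_sup_sub_sup_le_abs y 0 0))

theorem Solid.inf_mem {m : Submodule ℝ B} (hm : Solid m) {x y : B} (hx : x ∈ m) (hy : y ∈ m) :
    x ⊓ y ∈ m := by
  have := m.neg_mem (hm.sup_mem (m.neg_mem hx) (m.neg_mem hy))
  rwa [neg_sup, neg_neg, neg_neg] at this

noncomputable instance instLatticePI (v : B) : Lattice (PI v) :=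
  Subtype.lattice (fun _ _ hx hy => (PI_solid v).sup_mem hx hy)
    (fun _ _ hx hy => (PI_solid v).inf_mem hx hy)

instance instPosSMulMonoPI (v : B) : PosSMulMono ℝ (PI v) :=
  ⟨fun c hc x y h => show c • (x : B) ≤ c • (y : B) from
    smul_le_smul_of_nonneg_left (Subtype.coe_le_coe.2 h) hc⟩

theorem coe_sup_PI (v : B) (x y : PI v) : ((x ⊔ y : PI v) : B) = (x : B) ⊔ y := rfl
theorem coe_abs_PI (v : B) (x : PI v) : ((|x| : PI v) : B) = |(x : B)| := rfl

/-- the unit as an element of its ideal -/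
def un (v : B) : PI v := ⟨|v|, (PI_solid v).abs_mem (mem_gen _ _ _)⟩

theorem un_nonneg (v : B) : 0 ≤ un v := abs_nonneg v

theorem un_unit (v : B) (x : PI v) : ∃ C : ℝ, 0 ≤ C ∧ |x| ≤ C • un v := mem_PI.1 x.2

/-- characters -/
def Ch (v : B) : Type _ :=
  {χ : PI v →ₗ[ℝ] ℝ // (∀ a b, χ (a ⊔ b) = max (χ a) (χ b)) ∧ χ (un v) = 1}

theorem Ch.sup {v : B} (χ : Ch v) (a b : PI v) : χ.1 (a ⊔ b) = max (χ.1 a) (χ.1 b) := χ.2.1 a b
theorem Ch.one {v : B} (χ : Ch v) : χ.1 (un v) = 1 := χ.2.2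
theorem Ch.abs {v : B} (χ : Ch v) (a : PI v) : χ.1 |a| = |χ.1 a| := by
  rw [_root_.abs, χ.sup, map_neg]; rfl
theorem Ch.mono {v : B} (χ : Ch v) {a b : PI v} (h : a ≤ b) : χ.1 a ≤ χ.1 b := by
  rw [← sup_eq_right.2 h, χ.sup]; exact le_max_left _ _
theorem Ch.inf {v : B} (χ : Ch v) (a b : PI v) : χ.1 (a ⊓ b) = min (χ.1 a) (χ.1 b) := by
  have h := χ.sup (-a) (-b)
  rw [← neg_inf, map_neg, map_neg, map_neg, max_neg_neg] at h
  exact neg_injective h

theorem cont_abs : Continuous fun x : B => |x| := continuous_id.sup continuous_neg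

theorem le_of_forall_eps {x y w : B} (h : ∀ ε : ℝ, 0 < ε → x ≤ y + ε • w) : x ≤ y := by
  have h1 : Tendsto (fun n : ℕ => y + (1 / ((n : ℝ) + 1)) • w) atTop (𝓝 (y + (0 : ℝ) • w)) :=
    tendsto_const_nhds.add (tendsto_one_div_add_atTop_nhds_zero_nat.smul tendsto_const_nhds)
  rw [zero_smul, add_zero] at h1
  exact ge_of_tendsto' h1 fun n => h _ (by positivity)

theorem le_of_chars {v : B} {x y : PI v} (h : ∀ χ : Ch v, χ.1 x ≤ χ.1 y) : x ≤ y := by
  refine Subtype.coe_le_coe.1 (le_of_forall_eps (w := |v|) fun ε hε => ?_)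
  have : x - (y + ε • un v) ≤ 0 := by
    by_contra hc
    obtain ⟨χ, h1, h2, h3⟩ := exists_char (un v) (un_nonneg v) (un_unit v) _ hc
    have h4 := h ⟨χ, h1, h2⟩
    simp only [map_sub, map_add, map_smul, h2, smul_eq_mul, mul_one] at h3 h4
    linarith
  exact Subtype.coe_le_coe.2 (sub_nonpos.1 this)

theorem eq_of_chars {v : B} {x y : PI v} (h : ∀ χ : Ch v, χ.1 x = χ.1 y) : x = y :=
  le_antisymm (le_of_chars fun χ => (h χ).le) (le_of_chars fun χ => (h χ).ge)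

theorem exists_of_approx {v : B} (f : Ch v → ℝ)
    (h : ∀ ε : ℝ, 0 < ε → ∃ y : PI v, ∀ χ : Ch v, |χ.1 y - f χ| ≤ ε) :
    ∃ y : PI v, ∀ χ : Ch v, χ.1 y = f χ := by
  choose y hy using fun n : ℕ => h (1 / ((n : ℝ) + 1)) (by positivity)
  have hd : ∀ n m : ℕ, |(y m : B) - y n| ≤ (1 / ((m : ℝ) + 1) + 1 / ((n : ℝ) + 1)) • |v| := by
    intro n m
    have : |y m - y n| ≤ (1 / ((m : ℝ) + 1) + 1 / ((n : ℝ) + 1)) • un v := by
      refine le_of_chars fun χ => ?_
      rw [χ.abs, map_sub, map_smul, χ.one, smul_eq_mul, mul_one]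
      have h1 := hy m χ
      have h2 := hy n χ
      rw [abs_le] at h1 h2 ⊢
      constructor <;> linarith [h1.1, h1.2, h2.1, h2.2]
    exact this
  have hz : Tendsto (fun n : ℕ => 1 / ((n : ℝ) + 1)) atTop (𝓝 0) :=
    tendsto_one_div_add_atTop_nhds_zero_nat
  have hc : CauchySeq fun n => (y n : B) := by
    refine cauchySeq_of_le_tendsto_0 (fun N : ℕ => (2 * (1 / ((N : ℝ) + 1))) * ‖v‖) ?_ ?_
    · intro n m N hn hm
      rw [dist_eq_norm]
      have h1 : ‖(y n : B) - y m‖ ≤ ‖(1 / ((n : ℝ) + 1) + 1 / ((m : ℝ) + 1)) • |v|‖ :=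
        HasSolidNorm.solid ((hd m n).trans (le_abs_self _))
      rw [norm_smul, norm_abs_eq_norm, Real.norm_of_nonneg (by positivity)] at h1
      refine h1.trans (mul_le_mul_of_nonneg_right ?_ (norm_nonneg _))
      have h2 : 1 / ((n : ℝ) + 1) ≤ 1 / ((N : ℝ) + 1) := Nat.one_div_le_one_div hn
      have h3 : 1 / ((m : ℝ) + 1) ≤ 1 / ((N : ℝ) + 1) := Nat.one_div_le_one_div hm
      linarith
    · simpa using (hz.const_mul 2).mul_const ‖v‖
  obtain ⟨z, hzl⟩ := cauchySeq_tendsto_of_complete hc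
  have hz2 : ∀ n : ℕ, |z - y n| ≤ (1 / ((n : ℝ) + 1)) • |v| := by
    intro n
    have h1 : Tendsto (fun m : ℕ => |(y m : B) - y n|) atTop (𝓝 |z - y n|) :=
      (cont_abs.tendsto _).comp (hzl.sub_const _)
    have h2 : Tendsto (fun m : ℕ => (1 / ((m : ℝ) + 1) + 1 / ((n : ℝ) + 1)) • |v|) atTop
        (𝓝 ((0 + 1 / ((n : ℝ) + 1)) • |v|)) := (hz.add_const _).smul_const _
    rw [zero_add] at h2
    exact le_of_tendsto_of_tendsto' h1 h2 fun m => hd n m
  have hzm : z ∈ PI v := by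
    have h1 : z - y 0 ∈ PI v := mem_PI.2 ⟨_, by positivity, hz2 0⟩
    simpa using (PI v).add_mem h1 (y 0).2
  refine ⟨⟨z, hzm⟩, fun χ => ?_⟩
  have h3 : ∀ n : ℕ, |χ.1 ⟨z, hzm⟩ - f χ| ≤ 2 * (1 / ((n : ℝ) + 1)) := by
    intro n
    have h1 : |(⟨z, hzm⟩ : PI v) - y n| ≤ (1 / ((n : ℝ) + 1)) • un v := hz2 n
    have h2 := χ.mono h1
    rw [χ.abs, map_sub, map_smul, χ.one, smul_eq_mul, mul_one] at h2
    have h3 := hy n χ
    rw [abs_le] at h2 h3 ⊢
    constructor <;> linarith [h2.1, h2.2, h3.1, h3.2]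
  have h4 : |χ.1 ⟨z, hzm⟩ - f χ| ≤ 0 :=
    ge_of_tendsto' (by simpa using hz.const_mul 2) h3
  exact sub_eq_zero.1 (abs_nonpos_iff.1 h4)

theorem exists_sq {v : B} (x : PI v) : ∃ y : PI v, ∀ χ : Ch v, χ.1 y = χ.1 x ^ 2 := by
  refine exists_of_approx _ fun ε hε => ?_
  obtain ⟨C, hC, hx⟩ := un_unit v x
  have hxC : ∀ χ : Ch v, |χ.1 x| ≤ C := by
    intro χ
    have := χ.mono hx
    rwa [χ.abs, map_smul, χ.one, smul_eq_mul, mul_one] at this
  set δ := Real.sqrt ε with hδ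
  have hδ0 : 0 < δ := Real.sqrt_pos.2 hε
  have hδ2 : δ ^ 2 = ε := Real.sq_sqrt hε.le
  have key : ∀ N : ℕ, ∃ y : PI v, ∀ χ : Ch v, χ.1 y ≤ χ.1 x ^ 2 ∧
      (|χ.1 x| ≤ N * δ → χ.1 x ^ 2 - ε ≤ χ.1 y) := by
    intro N
    induction N with
    | zero =>
      refine ⟨0, fun χ => ⟨by rw [map_zero]; positivity, fun h => ?_⟩⟩
      have : χ.1 x = 0 := by simpa using h
      rw [this, map_zero]; linarith
    | succ N ih =>
      obtain ⟨y, hy⟩ := ih
      refine ⟨y ⊔ ((2 * (N * δ)) • |x| - ((N * δ) ^ 2) • un v), fun χ => ?_⟩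
      rw [χ.sup, map_sub, map_smul, map_smul, χ.abs, χ.one, ← sq_abs (χ.1 x)]
      have h0 := hy χ
      rw [← sq_abs (χ.1 x)] at h0
      simp only [smul_eq_mul, mul_one]
      constructor
      · exact max_le h0.1 (by nlinarith [sq_nonneg (|χ.1 x| - N * δ)])
      · intro h
        rcases le_total |χ.1 x| (N * δ) with h1 | h1
        · exact (h0.2 h1).trans (le_max_left _ _)
        · refine le_trans ?_ (le_max_right _ _)
          push_cast at h
          have h2 : (|χ.1 x| - N * δ) ^ 2 ≤ δ ^ 2 :=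
            pow_le_pow_left₀ (by linarith) (by linarith) 2
          nlinarith
  obtain ⟨N, hN⟩ := exists_nat_ge (C / δ)
  obtain ⟨y, hy⟩ := key N
  refine ⟨y, fun χ => ?_⟩
  have h1 := (hy χ).2 ((hxC χ).trans (by rwa [div_le_iff₀ hδ0] at hN))
  have h2 := (hy χ).1
  rw [abs_le]
  constructor <;> linarith

theorem exists_mul {v : B} (w x : PI v) : ∃ y : PI v, ∀ χ : Ch v, χ.1 y = χ.1 w * χ.1 x := by
  obtain ⟨a, ha⟩ := exists_sq (w + x)
  obtain ⟨b, hb⟩ := exists_sq (w - x)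
  refine ⟨(1 / 4 : ℝ) • (a - b), fun χ => ?_⟩
  rw [map_smul, map_sub, ha, hb, map_add, map_sub, smul_eq_mul]
  ring

/-- multiplication by `w` on the principal ideal -/
noncomputable def mulPI {v : B} (w : PI v) : PI v →ₗ[ℝ] PI v where
  toFun x := (exists_mul w x).choose
  map_add' x y := eq_of_chars fun χ => by
    rw [map_add, (exists_mul w _).choose_spec, (exists_mul w _).choose_spec,
      (exists_mul w _).choose_spec, map_add, mul_add]
  map_smul' c x := eq_of_chars fun χ => by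
    rw [map_smul, (exists_mul w _).choose_spec, (exists_mul w _).choose_spec, map_smul]
    simp only [smul_eq_mul, RingHom.id_apply]; ring

theorem char_mulPI {v : B} (w x : PI v) (χ : Ch v) : χ.1 (mulPI w x) = χ.1 w * χ.1 x :=
  (exists_mul w x).choose_spec χ

theorem exists_mult {v : B} (hd : Dense (PI v : Set B)) (w : PI v) (h0 : 0 ≤ w) (h1 : w ≤ un v) :
    ∃ M : B →L[ℝ] B, (∀ x : PI v, M x = mulPI w x) ∧ (∀ x y, M (x ⊔ y) = M x ⊔ M y) ∧
      ∀ x, ‖M x‖ ≤ ‖x‖ := by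
  have hdr : DenseRange (PI v).subtype := by
    rw [DenseRange, Submodule.coe_subtype, Subtype.range_coe]; exact hd
  have hw : ∀ χ : Ch v, 0 ≤ χ.1 w ∧ χ.1 w ≤ 1 := fun χ =>
    ⟨by simpa using χ.mono h0, by simpa [χ.one] using χ.mono h1⟩
  have hn : ∀ x : PI v, ‖((PI v).subtype ∘ₗ mulPI w) x‖ ≤ 1 * ‖(PI v).subtype x‖ := by
    intro x
    rw [one_mul]
    have : |mulPI w x| ≤ |x| := le_of_chars fun χ => by
      rw [χ.abs, χ.abs, char_mulPI, abs_mul, abs_of_nonneg (hw χ).1]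
      exact mul_le_of_le_one_left (abs_nonneg _) (hw χ).2
    exact HasSolidNorm.solid this
  let M : B →L[ℝ] B := ((PI v).subtype ∘ₗ mulPI w).extendOfNorm (PI v).subtype
  have hM : ∀ x : PI v, M x = mulPI w x := fun x =>
    LinearMap.extendOfNorm_eq hdr ⟨1, hn⟩ x
  refine ⟨M, hM, ?_, ?_⟩
  · intro x y
    refine hdr.induction_on₂ (p := fun x y => M (x ⊔ y) = M x ⊔ M y) ?_ ?_ x y
    · exact isClosed_eq (by fun_prop) (by fun_prop)
    · intro a b
      change M ((a ⊔ b : PI v) : B) = M a ⊔ M b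
      rw [hM, hM, hM, ← coe_sup_PI]
      congr 1
      refine eq_of_chars fun χ => ?_
      rw [χ.sup, char_mulPI, char_mulPI, char_mulPI, χ.sup, mul_max_of_nonneg _ _ (hw χ).1]
  · intro x
    refine hdr.induction_on (p := fun x => ‖M x‖ ≤ ‖x‖) x ?_ ?_
    · exact isClosed_le (by fun_prop) (by fun_prop)
    · intro a
      have := hn a
      rw [one_mul] at this
      change ‖M a‖ ≤ _
      rw [hM]
      exact this

theorem exists_quasi (I : Submodule ℝ B) (hI : Solid I) (hc : IsClosed (I : Set B))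
    (c : ℕ → B) (hcI : ∀ n, c n ∈ I) :
    ∃ u ∈ I, 0 ≤ u ∧ ∀ n, ∃ C : ℝ, 0 ≤ C ∧ |c n| ≤ C • u := by
  let a : ℕ → ℝ := fun n => (1 / 2) ^ n / (1 + ‖c n‖)
  have ha : ∀ n, 0 < a n := fun n => by positivity
  have hs : Summable fun n => a n • |c n| := by
    refine Summable.of_norm_bounded summable_geometric_two fun n => ?_
    rw [norm_smul, norm_abs_eq_norm, Real.norm_of_nonneg (ha n).le]
    simp only [a]
    rw [div_mul_eq_mul_div, div_le_iff₀ (by positivity)]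
    exact mul_le_mul_of_nonneg_left (by linarith) (by positivity)
  have hpos : ∀ n, 0 ≤ a n • |c n| := fun n => smul_nonneg (ha n).le (abs_nonneg _)
  refine ⟨∑' n, a n • |c n|, ?_, tsum_nonneg hpos, fun n => ⟨(a n)⁻¹, (inv_pos.2 (ha n)).le, ?_⟩⟩
  · refine hc.mem_of_tendsto hs.hasSum (Eventually.of_forall fun s => ?_)
    exact I.sum_mem fun n _ => I.smul_mem _ (hI.abs_mem (hcI n))
  · have h1 : a n • |c n| ≤ ∑' n, a n • |c n| := hs.le_tsum n fun j _ => hpos j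
    calc |c n| = (a n)⁻¹ • (a n • |c n|) := by
          rw [smul_smul, inv_mul_cancel₀ (ha n).ne', one_smul]
      _ ≤ _ := smul_le_smul_of_nonneg_left h1 (inv_pos.2 (ha n)).le

end Pool.Agent.P.MP_9b1016_an
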