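import Mathlib
import Pool.Agent.P.MP_9b1016_an.Mult

/-!
For a closed ideal `I` of a separable Banach lattice `B`: contractive lattice homomorphisms
`M n : B → B` congruent to the identity modulo `I`, whose kernels increase to a dense part of `I`.
-/

set_option autoImplicit false
set_option linter.unusedSectionVars false

namespace Pool.Agent.P.MP_9b1016_an

open Filter Topology TopologicalSpace

variable {B : Type*} [NormedAddCommGroup B] [NormedSpace ℝ B] [CompleteSpace B] [Lattice B]
  [IsOrderedAddMonoid B] [PosSMulMono ℝ B] [HasSolidNorm B]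

theorem map_abs_of_sup (M : B →L[ℝ] B) (h : ∀ x y, M (x ⊔ y) = M x ⊔ M y) (x : B) :
    M |x| = |M x| := by
  rw [abs, h, map_neg]; rfl

theorem mono_of_sup (M : B →L[ℝ] B) (h : ∀ x y, M (x ⊔ y) = M x ⊔ M y) {x y : B} (hxy : x ≤ y) :
    M x ≤ M y := by
  rw [← sup_eq_right.2 hxy, h]; exact le_sup_left

theorem eq_zero_of_abs_le {x : B} (h : |x| ≤ 0) : x = 0 :=
  le_antisymm ((le_abs_self x).trans h) (neg_nonpos.1 ((neg_le_abs x).trans h))

theorem exists_approx [SeparableSpace B] (I : Submodule ℝ B) (hI : Solid I)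
    (hc : IsClosed (I : Set B)) :
    ∃ M : ℕ → B →L[ℝ] B, (∀ n x y, M n (x ⊔ y) = M n x ⊔ M n y) ∧ (∀ n x, ‖M n x‖ ≤ ‖x‖) ∧
      (∀ n x, x - M n x ∈ I) ∧ (∀ n x, M n x = 0 → M (n + 1) x = 0) ∧
      ∀ x ∈ I, x ∈ closure (⋃ n, {y | M n y = 0}) := by
  have : SecondCountableTopology B := UniformSpace.secondCountable_of_separable B
  obtain ⟨u, huI, hu0, hu⟩ := exists_quasi I hI hc (fun n => (denseSeq I n : B))
    (fun n => (denseSeq I n).2)
  obtain ⟨v₀, -, hv0, hv⟩ := exists_quasi ⊤ (fun _ _ _ _ => trivial) isClosed_univ (denseSeq B)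
    (fun _ => trivial)
  set v := v₀ + u with hvdef
  have hvpos : 0 ≤ v := add_nonneg hv0 hu0
  have habs : |v| = v := abs_of_nonneg hvpos
  have huv : u ≤ v := le_add_of_nonneg_left hv0
  have hd : Dense (PI v : Set B) := by
    refine (denseRange_denseSeq B).mono ?_
    rintro _ ⟨n, rfl⟩
    obtain ⟨C, hC, h⟩ := hv n
    refine mem_PI.2 ⟨C, hC, h.trans (smul_le_smul_of_nonneg_left ?_ hC)⟩
    rw [habs]; exact le_add_of_nonneg_right hu0
  have hdr : DenseRange (PI v).subtype := by
    rw [DenseRange, Submodule.coe_subtype, Subtype.range_coe]; exact hd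
  let U : PI v := ⟨u, mem_PI.2 ⟨1, zero_le_one, by rwa [one_smul, habs, abs_of_nonneg hu0]⟩⟩
  have hU0 : ∀ χ : Ch v, 0 ≤ χ.1 U := fun χ => by
    simpa using χ.mono (show (0 : PI v) ≤ U from hu0)
  let w : ℕ → PI v := fun n => (un v - (n : ℝ) • U) ⊔ 0
  have hw : ∀ n (χ : Ch v), χ.1 (w n) = max (1 - n * χ.1 U) 0 := by
    intro n χ
    simp only [w]
    rw [χ.sup, map_sub, map_smul, χ.one, map_zero, smul_eq_mul]
  have hex : ∀ n, ∃ M : B →L[ℝ] B, (∀ x : PI v, M x = mulPI (w n) x) ∧
      (∀ x y, M (x ⊔ y) = M x ⊔ M y) ∧ ∀ x, ‖M x‖ ≤ ‖x‖ := fun n =>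
    exists_mult hd (w n) le_sup_right (le_of_chars fun χ => by
      rw [hw, χ.one]
      exact max_le (by nlinarith [hU0 χ, (Nat.cast_nonneg n : (0 : ℝ) ≤ n)]) zero_le_one)
  choose M hM hMs hMn using hex
  refine ⟨M, hMs, hMn, ?_, ?_, ?_⟩
  · intro n x
    refine hdr.induction_on (p := fun x => x - M n x ∈ I) x ?_ ?_
    · exact hc.preimage (f := fun x => x - M n x) (by fun_prop)
    · intro a
      change (a : B) - M n a ∈ I
      rw [hM]
      obtain ⟨C, hC, ha⟩ := un_unit v a
      have h1 : |a - mulPI (w n) a| ≤ (C * n) • U := le_of_chars fun χ => by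
        have h2 := χ.mono ha
        rw [χ.abs, map_smul, χ.one, smul_eq_mul, mul_one] at h2
        rw [χ.abs, map_sub, char_mulPI, map_smul, smul_eq_mul, hw, ← one_sub_mul, abs_mul]
        have h3 : 0 ≤ (n : ℝ) * χ.1 U := mul_nonneg (Nat.cast_nonneg n) (hU0 χ)
        have h4 : |1 - max (1 - n * χ.1 U) 0| ≤ n * χ.1 U := by
          rw [abs_le]
          constructor
          · have : max (1 - n * χ.1 U) 0 ≤ 1 := max_le (by linarith) zero_le_one
            linarith
          · have := le_max_left (1 - n * χ.1 U) 0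
            linarith
        calc _ ≤ (n * χ.1 U) * C := mul_le_mul h4 h2 (abs_nonneg _) h3
          _ = _ := by ring
      exact hI.of_le (y := (C * n) • u) h1 (I.smul_mem _ huI)
  · intro n x hx
    have key : ∀ x, M (n + 1) |x| ≤ M n |x| := by
      intro x
      refine hdr.induction_on (p := fun x => M (n + 1) |x| ≤ M n |x|) x ?_ ?_
      · exact isClosed_le ((M (n + 1)).continuous.comp cont_abs) ((M n).continuous.comp cont_abs)
      · intro a
        change M (n + 1) ((|a| : PI v) : B) ≤ M n ((|a| : PI v) : B)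
        rw [hM, hM]
        refine Subtype.coe_le_coe.2 (le_of_chars fun χ => ?_)
        rw [char_mulPI, char_mulPI, χ.abs, hw, hw]
        refine mul_le_mul_of_nonneg_right (max_le_max ?_ le_rfl) (abs_nonneg _)
        push_cast
        nlinarith [hU0 χ]
    have h1 := key x
    rw [map_abs_of_sup _ (hMs _), map_abs_of_sup _ (hMs _), hx, abs_zero] at h1
    exact eq_zero_of_abs_le h1
  · intro x hx
    have hseq : ∀ k, (denseSeq I k : B) ∈ closure (⋃ n, {y | M n y = 0}) := by
      intro k
      obtain ⟨C, hC, h⟩ := hu k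
      let c : PI v := ⟨denseSeq I k, mem_PI.2 ⟨C, hC, h.trans
        (smul_le_smul_of_nonneg_left (by rwa [habs]) hC)⟩⟩
      have hcU : |c| ≤ C • U := h
      let t : ℕ → PI v := fun n =>
        (c ⊓ (C / ((n : ℝ) + 1)) • un v) ⊔ -((C / ((n : ℝ) + 1)) • un v)
      have ht : ∀ n (χ : Ch v), χ.1 (t n) =
          max (min (χ.1 c) (C / ((n : ℝ) + 1))) (-(C / ((n : ℝ) + 1))) := by
        intro n χ
        simp only [t]
        rw [χ.sup, χ.inf, map_neg, map_smul, χ.one, smul_eq_mul, mul_one]
      have h1 : ∀ n, M (n + 1) ((c - t n : PI v) : B) = 0 := by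
        intro n
        rw [hM]
        have : mulPI (w (n + 1)) (c - t n) = 0 := eq_of_chars fun χ => by
          rw [char_mulPI, map_zero, map_sub, ht, hw]
          have h2 := χ.mono hcU
          rw [χ.abs, map_smul, smul_eq_mul] at h2
          rcases le_total (1 - ((n + 1 : ℕ) : ℝ) * χ.1 U) 0 with h3 | h3
          · rw [max_eq_right h3, zero_mul]
          · have h4 : C * χ.1 U ≤ C / ((n : ℝ) + 1) := by
              rw [le_div_iff₀ (by positivity)]
              push_cast at h3
              nlinarith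
            have h5 := abs_le.1 (h2.trans h4)
            rw [min_eq_left h5.2, max_eq_left h5.1, sub_self, mul_zero]
        rw [this]; rfl
      have h2 : ∀ n, ‖(t n : B)‖ ≤ C * (1 / ((n : ℝ) + 1)) * ‖v‖ := by
        intro n
        have h0 : 0 ≤ C / ((n : ℝ) + 1) := by positivity
        have h3 : |t n| ≤ (C / ((n : ℝ) + 1)) • un v := le_of_chars fun χ => by
          rw [χ.abs, ht, map_smul, χ.one, smul_eq_mul, mul_one, abs_le]
          exact ⟨le_max_right _ _, max_le (min_le_right _ _) (by linarith)⟩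
        have h4 : ‖(t n : B)‖ ≤ ‖(C / ((n : ℝ) + 1)) • |v|‖ :=
          HasSolidNorm.solid (le_trans h3 (le_abs_self _))
        rwa [norm_smul, norm_abs_eq_norm, Real.norm_of_nonneg h0, div_eq_mul_one_div] at h4
      have h3 : Tendsto (fun n => (t n : B)) atTop (𝓝 0) :=
        squeeze_zero_norm h2 (by
          simpa using (tendsto_one_div_add_atTop_nhds_zero_nat.const_mul C).mul_const ‖v‖)
      have h4 : Tendsto (fun n => ((c - t n : PI v) : B)) atTop (𝓝 (denseSeq I k : B)) := by
        simpa using h3.const_sub (denseSeq I k : B)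
      exact mem_closure_of_tendsto h4
        (Eventually.of_forall fun n => Set.mem_iUnion.2 ⟨n + 1, h1 n⟩)
    exact (denseRange_denseSeq I).induction_on
      (p := fun x : I => (x : B) ∈ closure (⋃ n, {y | M n y = 0})) ⟨x, hx⟩
      (isClosed_closure.preimage continuous_subtype_val) hseq

end Pool.Agent.P.MP_9b1016_an
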