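import Mathlib

/-!
Lifting properties of real Banach lattices: definitions.

A Banach lattice is a type with the instances `NormedAddCommGroup`, `NormedSpace ℝ`,
`CompleteSpace`, `Lattice`, `IsOrderedAddMonoid`, `PosSMulMono ℝ` and `HasSolidNorm`.
-/

set_option autoImplicit false

namespace Pool.Agent.P.MP_9b1016_an

universe u v

section

variable {A : Type u} [NormedAddCommGroup A] [NormedSpace ℝ A] [Lattice A]
  {B : Type v} [NormedAddCommGroup B] [NormedSpace ℝ B] [Lattice B]

/-- `I` is a closed ideal of `B`. -/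
def IsClosedIdeal (I : Submodule ℝ B) : Prop :=
  (∀ x y : B, |x| ≤ |y| → y ∈ I → x ∈ I) ∧ IsClosed (I : Set B)

/-- `φ : A → B` is a lattice homomorphism of norm at most `c`. -/
def IsHom (φ : A → B) (c : ℝ) : Prop :=
  IsLinearMap ℝ φ ∧ (∀ x y, φ (x ⊔ y) = φ x ⊔ φ y) ∧ ∀ x, ‖φ x‖ ≤ c * ‖x‖

/-- `φ : A → B / I` is a lattice homomorphism of norm at most `c`; in `B / I` the supremum of the
classes of `b` and `b'` is the class of `b ⊔ b'`, and the norm is the quotient norm. -/
def IsQuotHom (I : Submodule ℝ B) (φ : A → B ⧸ I) (c : ℝ) : Prop :=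
  IsLinearMap ℝ φ ∧
    (∀ (x y : A) (b b' : B), φ x = I.mkQ b → φ y = I.mkQ b' → φ (x ⊔ y) = I.mkQ (b ⊔ b')) ∧
    ∀ x, ‖φ x‖ ≤ c * ‖x‖

/-- `φ : A → B / I` is `1⁺`-liftable. -/
def Liftable (I : Submodule ℝ B) (φ : A → B ⧸ I) : Prop :=
  ∀ ε : ℝ, 0 < ε → ∃ ψ : A → B, IsHom ψ (1 + ε) ∧ ∀ a, I.mkQ (ψ a) = φ a

variable (A B)

/-- The `ℓ`-openness condition for `A` tested on `B`.  The set `Hom₁(A, B / I)` is a subtype of the
function space `A → B / I`, so it carries the topology of pointwise norm convergence. -/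
def LOpenFor : Prop :=
  ∀ I : Submodule ℝ B, IsClosedIdeal I →
    IsOpen {φ : {φ : A → B ⧸ I // IsQuotHom I φ 1} | Liftable I φ.1}

/-- The semiprojectivity condition for `A` tested on `B`.  The last clause says that `ψ` followed by
the canonical map `B / I n → B / J` is `φ`. -/
def SemiprojectiveFor : Prop :=
  ∀ (I : ℕ → Submodule ℝ B) (J : Submodule ℝ B), (∀ n, IsClosedIdeal (I n)) → Monotone I →
    (J : Set B) = closure (⋃ n, (I n : Set B)) →
    ∀ φ : A → B ⧸ J, IsQuotHom J φ 1 →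
      ∃ n : ℕ, ∀ ε : ℝ, 0 < ε → ∃ ψ : A → B ⧸ I n, IsQuotHom (I n) ψ (1 + ε) ∧
        ∀ (a : A) (b : B), ψ a = (I n).mkQ b → φ a = J.mkQ b

end

/-- `A` is `ℓ`-open: the condition holds for every separable Banach lattice `B`. -/
def LOpen (A : Type u) [NormedAddCommGroup A] [NormedSpace ℝ A] [Lattice A] : Prop :=
  ∀ (B : Type v) [NormedAddCommGroup B] [NormedSpace ℝ B] [CompleteSpace B] [Lattice B]
    [IsOrderedAddMonoid B] [PosSMulMono ℝ B] [HasSolidNorm B] [TopologicalSpace.SeparableSpace B],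
    LOpenFor A B

/-- `A` is semiprojective: the condition holds for every separable Banach lattice `B`. -/
def Semiprojective (A : Type u) [NormedAddCommGroup A] [NormedSpace ℝ A] [Lattice A] : Prop :=
  ∀ (B : Type v) [NormedAddCommGroup B] [NormedSpace ℝ B] [CompleteSpace B] [Lattice B]
    [IsOrderedAddMonoid B] [PosSMulMono ℝ B] [HasSolidNorm B] [TopologicalSpace.SeparableSpace B],
    SemiprojectiveFor A B

end Pool.Agent.P.MP_9b1016_an
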